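import Pool.Agent.N656.MH.Stm

/-!
# Project MH (helper656), parts GEN and HALL (helper277)
-/

set_option autoImplicit false

namespace Pool.Agent.N277.MH

open Filter MeasureTheory Set
open Pool.Agent.N656.MH

/-- transfer of null sets -/
theorem transfer (q : ℕ) (hq : 1 ≤ q) (P : ℝ → Prop) (h : ∀ᵐ β : ℝ, P β) :
    ∀ᵐ lam : ℝ, 0 < lam → P (lam ^ ((1 : ℝ) / q)) := by
  rw [ae_iff] at h ⊢
  have h1 : volume ((fun β : ℝ => β ^ q) '' {β | ¬ P β}) = 0 :=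
    addHaar_image_eq_zero_of_differentiableOn_of_addHaar_eq_zero volume
      (by fun_prop : Differentiable ℝ fun β : ℝ => β ^ q).differentiableOn h
  refine measure_mono_null ?_ h1
  intro lam hlam
  rw [Set.mem_ofPred_eq, Classical.not_imp] at hlam
  refine ⟨lam ^ ((1 : ℝ) / q), hlam.2, ?_⟩
  have hq0 : (q : ℝ) ≠ 0 := by exact_mod_cast (by omega : q ≠ 0)
  show (lam ^ ((1 : ℝ) / q)) ^ q = lam
  rw [← Real.rpow_natCast, ← Real.rpow_mul hlam.1.le, one_div_mul_cancel hq0, Real.rpow_one]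

theorem pow_diff_eq (q : ℕ) (y B : ℝ) : |y ^ q - B ^ q| =
    |∑ i ∈ Finset.range q, y ^ i * B ^ (q - 1 - i)| * |y - B| := by
  rw [← abs_mul, (Commute.all y B).geom_sum₂_mul]

theorem pow_diff_ub (q : ℕ) {y B M : ℝ} (hy : 0 ≤ y) (hB : 0 ≤ B) (hyM : y ≤ M) (hBM : B ≤ M) :
    |y ^ q - B ^ q| ≤ (q * M ^ (q - 1)) * |y - B| := by
  rw [pow_diff_eq]
  refine mul_le_mul_of_nonneg_right ?_ (abs_nonneg _)
  rw [abs_of_nonneg (Finset.sum_nonneg fun i _ => by positivity)]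
  have hM : 0 ≤ M := hy.trans hyM
  calc ∑ i ∈ Finset.range q, y ^ i * B ^ (q - 1 - i) ≤ ∑ _i ∈ Finset.range q, M ^ (q - 1) := by
        refine Finset.sum_le_sum fun i hi => ?_
        rw [Finset.mem_range] at hi
        calc y ^ i * B ^ (q - 1 - i) ≤ M ^ i * M ^ (q - 1 - i) :=
              mul_le_mul (pow_le_pow_left₀ hy hyM _) (pow_le_pow_left₀ hB hBM _) (by positivity) (by positivity)
          _ = M ^ (q - 1) := by
              rw [← pow_add]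
              congr 1
              omega
    _ = q * M ^ (q - 1) := by
        rw [Finset.sum_const, Finset.card_range, nsmul_eq_mul]

theorem pow_diff_lb (q : ℕ) (hq : 1 ≤ q) {y B : ℝ} (hy : 0 ≤ y) (hB : 0 ≤ B) :
    B ^ (q - 1) * |y - B| ≤ |y ^ q - B ^ q| := by
  rw [pow_diff_eq]
  refine mul_le_mul_of_nonneg_right ?_ (abs_nonneg _)
  rw [abs_of_nonneg (Finset.sum_nonneg fun i _ => by positivity)]
  have h1 := Finset.single_le_sum (f := fun i => y ^ i * B ^ (q - 1 - i))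
    (fun i _ => by positivity) (Finset.mem_range.2 (by omega : 0 < q))
  simpa using h1

theorem dn_le (x : ℝ) (z : ℤ) : dn x ≤ |(z : ℝ) - x| := by
  rw [abs_sub_comm]
  exact round_le x z

theorem dn_nonneg (x : ℝ) : 0 ≤ dn x := abs_nonneg _

theorem B_pow {lam : ℝ} (hlam : 0 < lam) (p q : ℕ) (hq : 1 ≤ q) (x : ℕ) :
    (lam ^ ((1 : ℝ) / q) * (x : ℝ) ^ ((p : ℝ) / q)) ^ q = lam * (x : ℝ) ^ p := by
  have hq0 : (q : ℝ) ≠ 0 := by exact_mod_cast (by omega : q ≠ 0)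
  rw [mul_pow]
  congr 1
  · rw [← Real.rpow_natCast, ← Real.rpow_mul hlam.le, one_div_mul_cancel hq0, Real.rpow_one]
  · rw [← Real.rpow_natCast ((x : ℝ) ^ ((p : ℝ) / q)), ← Real.rpow_mul (Nat.cast_nonneg _),
      div_mul_cancel₀ _ hq0, Real.rpow_natCast]

theorem B_pow1 {β : ℝ} (p q : ℕ) (hq : 1 ≤ q) {x : ℕ} (hx : 1 ≤ x) :
    (β * (x : ℝ) ^ ((p : ℝ) / q)) ^ (q - 1) =
      β ^ (q - 1) * ((x : ℝ) ^ ((p : ℝ) - p / q - 1) * (x : ℝ)) := by
  have hq0 : (q : ℝ) ≠ 0 := by exact_mod_cast (by omega : q ≠ 0)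
  have hx0 : (0 : ℝ) < x := by exact_mod_cast hx
  rw [mul_pow]
  congr 1
  rw [← Real.rpow_natCast ((x : ℝ) ^ ((p : ℝ) / q)), ← Real.rpow_mul hx0.le]
  nth_rewrite 3 [← Real.rpow_one (x : ℝ)]
  rw [← Real.rpow_add hx0]
  congr 1
  rw [Nat.cast_sub hq]
  field_simp
  push_cast
  ring

theorem gen_upper {lam : ℝ} (hlam : 0 < lam) (p q : ℕ) (hq : 1 ≤ q) (hqp : q ≤ p)
    (h : Io ((p : ℝ) / q) (lam ^ ((1 : ℝ) / q))) :
    ∀ c : ℝ, 0 < c → ∃ᶠ x : ℕ in atTop, ∃ y : ℕ,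
      |(y : ℝ) ^ q - lam * (x : ℝ) ^ p| < c * (x : ℝ) ^ ((p : ℝ) - p / q - 1) := by
  intro c hc
  set β : ℝ := lam ^ ((1 : ℝ) / q) with hβ
  have hβ0 : 0 < β := Real.rpow_pos_of_pos hlam _
  have hqpos : (0 : ℝ) < q := by exact_mod_cast (by omega : 0 < q)
  set c' : ℝ := c / (q * 2 ^ (q - 1) * β ^ (q - 1)) with hc'
  have hc'0 : 0 < c' := by positivity
  have hBt : Tendsto (fun x : ℕ => β * (x : ℝ) ^ ((p : ℝ) / q)) atTop atTop := by
    refine Tendsto.const_mul_atTop hβ0 ?_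
    refine (tendsto_rpow_atTop ?_).comp tendsto_natCast_atTop_atTop
    have : (0 : ℝ) < p := by exact_mod_cast (by omega : 0 < p)
    positivity
  have hev : ∀ᶠ x : ℕ in atTop, 1 ≤ β * (x : ℝ) ^ ((p : ℝ) / q) ∧ 1 ≤ x :=
    (hBt.eventually_ge_atTop 1).and (eventually_ge_atTop 1)
  refine ((h c' hc'0).and_eventually hev).mono ?_
  rintro x ⟨h1, hB1, hx⟩
  set B : ℝ := β * (x : ℝ) ^ ((p : ℝ) / q) with hB
  have hx0 : (0 : ℝ) < x := by exact_mod_cast hx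
  have hr : 0 ≤ round B := by
    rw [round_eq]
    exact Int.floor_nonneg.2 (by linarith)
  refine ⟨(round B).toNat, ?_⟩
  have hy : (((round B).toNat : ℕ) : ℝ) = (round B : ℝ) := by
    have : (((round B).toNat : ℕ) : ℤ) = round B := Int.toNat_of_nonneg hr
    exact_mod_cast congrArg (Int.cast : ℤ → ℝ) this
  have hdn : |((((round B).toNat : ℕ) : ℝ)) - B| = dn B := by
    rw [hy, abs_sub_comm]
    rfl
  have hhalf : dn B ≤ 1 / 2 := abs_sub_round B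
  have hyB : (((round B).toNat : ℕ) : ℝ) ≤ 2 * B := by
    have h2 := (abs_le.1 (hdn.le.trans hhalf)).2
    linarith
  have hub := pow_diff_ub q (y := (((round B).toNat : ℕ) : ℝ)) (B := B) (M := 2 * B)
    (Nat.cast_nonneg _) (by linarith) hyB (by linarith)
  have hBq : B ^ q = lam * (x : ℝ) ^ p := B_pow hlam p q hq x
  rw [hBq, hdn] at hub
  refine hub.trans_lt ?_
  have hBq1 : B ^ (q - 1) = β ^ (q - 1) * ((x : ℝ) ^ ((p : ℝ) - p / q - 1) * (x : ℝ)) := B_pow1 p q hq hx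
  have hX : 0 < (x : ℝ) ^ ((p : ℝ) - p / q - 1) := Real.rpow_pos_of_pos hx0 _
  rw [mul_pow, hBq1]
  have e1 : (q : ℝ) * (2 ^ (q - 1) * (β ^ (q - 1) * ((x : ℝ) ^ ((p : ℝ) - p / q - 1) * (x : ℝ)))) * dn B =
      (q * 2 ^ (q - 1) * β ^ (q - 1) * (x : ℝ) ^ ((p : ℝ) - p / q - 1)) * ((x : ℝ) * dn B) := by ring
  have e2 : c * (x : ℝ) ^ ((p : ℝ) - p / q - 1) =
      (q * 2 ^ (q - 1) * β ^ (q - 1) * (x : ℝ) ^ ((p : ℝ) - p / q - 1)) * c' := by
    rw [hc']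
    field_simp
  rw [e1, e2]
  exact mul_lt_mul_of_pos_left h1 (by positivity)

theorem gen_lower {lam : ℝ} (hlam : 0 < lam) (p q : ℕ) (hq : 1 ≤ q)
    (h : ∀ ε : ℝ, 0 < ε → ∀ᶠ n : ℕ in atTop,
      1 / ((n : ℝ) * (Real.log n) ^ (1 + ε)) ≤ dn (lam ^ ((1 : ℝ) / q) * (n : ℝ) ^ ((p : ℝ) / q))) :
    ∀ ε : ℝ, 0 < ε → ∀ᶠ x : ℕ in atTop, ∀ y : ℕ,
      (x : ℝ) ^ ((p : ℝ) - p / q - 1) / (Real.log x) ^ (1 + ε) ≤ |(y : ℝ) ^ q - lam * (x : ℝ) ^ p| := by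
  intro ε hε
  set β : ℝ := lam ^ ((1 : ℝ) / q) with hβ
  have hβ0 : 0 < β := Real.rpow_pos_of_pos hlam _
  have hlog : Tendsto (fun x : ℕ => β ^ (q - 1) * (Real.log x) ^ (ε / 2)) atTop atTop := by
    refine Tendsto.const_mul_atTop (by positivity) ?_
    exact (tendsto_rpow_atTop (by positivity)).comp (Real.tendsto_log_atTop.comp tendsto_natCast_atTop_atTop)
  have hlog2 : Tendsto (fun x : ℕ => Real.log x) atTop atTop :=
    Real.tendsto_log_atTop.comp tendsto_natCast_atTop_atTop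
  filter_upwards [h (ε / 2) (by positivity), hlog.eventually_ge_atTop 1, hlog2.eventually_gt_atTop 0,
    eventually_ge_atTop 1] with x h1 h2 h3 hx y
  have hx0 : (0 : ℝ) < x := by exact_mod_cast hx
  set B : ℝ := β * (x : ℝ) ^ ((p : ℝ) / q) with hB
  have hB0 : 0 < B := by positivity
  have hBq : B ^ q = lam * (x : ℝ) ^ p := B_pow hlam p q hq x
  have hlb := pow_diff_lb q hq (y := (y : ℝ)) (B := B) (Nat.cast_nonneg _) hB0.le
  rw [hBq] at hlb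
  refine le_trans ?_ hlb
  have h4 : dn B ≤ |(y : ℝ) - B| := by
    have := dn_le B (y : ℤ)
    exact_mod_cast this
  have h5 : 1 / ((x : ℝ) * (Real.log x) ^ (1 + ε / 2)) ≤ |(y : ℝ) - B| := h1.trans h4
  have hBq1 : B ^ (q - 1) = β ^ (q - 1) * ((x : ℝ) ^ ((p : ℝ) - p / q - 1) * (x : ℝ)) := B_pow1 p q hq hx
  have hX : 0 < (x : ℝ) ^ ((p : ℝ) - p / q - 1) := Real.rpow_pos_of_pos hx0 _
  refine le_trans ?_ (mul_le_mul_of_nonneg_left h5 (by positivity))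
  rw [hBq1]
  have hL : 0 < (Real.log x) ^ (1 + ε / 2) := Real.rpow_pos_of_pos h3 _
  have hL2 : (Real.log x) ^ (1 + ε) = (Real.log x) ^ (1 + ε / 2) * (Real.log x) ^ (ε / 2) := by
    rw [← Real.rpow_add h3]
    congr 1
    ring
  have hL3 : 0 < (Real.log x) ^ (ε / 2) := Real.rpow_pos_of_pos h3 _
  rw [hL2, div_le_iff₀ (by positivity)]
  have e1 : β ^ (q - 1) * ((x : ℝ) ^ ((p : ℝ) - p / q - 1) * (x : ℝ)) *
      (1 / ((x : ℝ) * (Real.log x) ^ (1 + ε / 2))) *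
      ((Real.log x) ^ (1 + ε / 2) * (Real.log x) ^ (ε / 2)) =
      (x : ℝ) ^ ((p : ℝ) - p / q - 1) * (β ^ (q - 1) * (Real.log x) ^ (ε / 2)) := by
    field_simp
  rw [e1]
  exact le_mul_of_one_le_right hX.le h2

theorem gen : Pool.Agent.N656.MH.S_GEN := by
  intro p q hq hqp h1 h2
  filter_upwards [transfer q hq _ h1, transfer q hq _ h2] with lam g1 g2 hlam
  exact ⟨gen_upper hlam p q hq hqp (g1 hlam), gen_lower hlam p q hq (g2 hlam)⟩

end Pool.Agent.N277.MH
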