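import Pool.Agent.N277.MH.GEN

/-!
# Project MH (helper656), part HALL (helper277)
-/

set_option autoImplicit false

namespace Pool.Agent.N277.MH

open Filter MeasureTheory Set
open Pool.Agent.N656.MH

/-- the failure of Hall's inequality -/
theorem hall_fails {lam : ℝ} (hlam : 0 < lam)
    (h : ∀ c : ℝ, 0 < c → ∃ᶠ x : ℕ in atTop, ∃ y : ℕ,
      |(y : ℝ) ^ 2 - lam * (x : ℝ) ^ 3| < c * (x : ℝ) ^ ((1 : ℝ) / 2))
    (hne : ∀ x y : ℕ, 1 ≤ x → (y : ℝ) ^ 2 - lam * (x : ℝ) ^ 3 ≠ 0) : HallFails lam := by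
  intro C
  set β : ℝ := Real.sqrt lam with hβ
  have hβ0 : 0 < β := Real.sqrt_pos.2 hlam
  have hβ2 : β ^ 2 = lam := Real.sq_sqrt hlam.le
  set c : ℝ := min (3 / 4 * lam) (min 1 (β / (2 * (|C| + 1)))) with hc
  have hc0 : 0 < c := by positivity
  have hc1 : c ≤ 3 / 4 * lam := min_le_left _ _
  have hc2 : c ≤ 1 := (min_le_right _ _).trans (min_le_left _ _)
  have hc3 : c ≤ β / (2 * (|C| + 1)) := (min_le_right _ _).trans (min_le_right _ _)
  refine ((h c hc0).and_eventually (eventually_ge_atTop 1)).mono ?_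
  rintro x ⟨⟨y, hy⟩, hx⟩
  refine ⟨y, hne x y hx, ?_⟩
  have hx1 : (1 : ℝ) ≤ x := by exact_mod_cast hx
  have hx0 : (0 : ℝ) < x := by linarith
  set k : ℝ := (y : ℝ) ^ 2 - lam * (x : ℝ) ^ 3 with hk
  set s : ℝ := (x : ℝ) ^ ((1 : ℝ) / 2) with hs
  have hs0 : 0 < s := Real.rpow_pos_of_pos hx0 _
  have hs2 : s ^ 2 = x := by
    rw [hs, ← Real.sqrt_eq_rpow, Real.sq_sqrt hx0.le]
  have hs1 : 1 ≤ s := by
    rw [hs]
    exact Real.one_le_rpow hx1 (by norm_num)
  have hx3 : (x : ℝ) ^ 3 = s ^ 6 := by rw [← hs2]; ring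
  -- the lower bound of y
  have hkl : -(c * s) < k := (abs_lt.1 hy).1
  have hs6 : s ≤ s ^ 6 := le_self_pow₀ hs1 (by norm_num)
  have hy2 : (β / 2 * s ^ 3) ^ 2 ≤ (y : ℝ) ^ 2 := by
    have e1 : (y : ℝ) ^ 2 = k + lam * s ^ 6 := by rw [hk, hx3]; ring
    have e2 : (β / 2 * s ^ 3) ^ 2 = lam / 4 * s ^ 6 := by
      rw [← hβ2]; ring
    rw [e1, e2]
    have h1 : c * s ≤ 3 / 4 * lam * s ^ 6 := mul_le_mul hc1 hs6 hs0.le (by positivity)
    linarith
  have hyl : β / 2 * s ^ 3 ≤ (y : ℝ) :=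
    (pow_le_pow_iff_left₀ (by positivity) (Nat.cast_nonneg _) two_ne_zero).1 hy2
  -- the bound of k
  have hk3 : |k| ^ 3 ≤ (c * s) ^ 3 := pow_le_pow_left₀ (abs_nonneg _) hy.le 3
  have hc4 : c ^ 3 ≤ c := by
    calc c ^ 3 = c * c ^ 2 := by ring
      _ ≤ c * 1 := mul_le_mul_of_nonneg_left (pow_le_one₀ hc0.le hc2) hc0.le
      _ = c := mul_one c
  have h5 : |C| * c < β / 2 := by
    have h6 : (|C| + 1) * c ≤ β / 2 := by
      have := mul_le_mul_of_nonneg_left hc3 (by positivity : 0 ≤ |C| + 1)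
      refine this.trans (le_of_eq ?_)
      field_simp
    have : |C| * c < (|C| + 1) * c := by nlinarith
    linarith
  calc C * |k| ^ 3 ≤ |C| * |k| ^ 3 := mul_le_mul_of_nonneg_right (le_abs_self C) (by positivity)
    _ ≤ |C| * (c * s) ^ 3 := mul_le_mul_of_nonneg_left hk3 (abs_nonneg _)
    _ = |C| * c ^ 3 * s ^ 3 := by ring
    _ ≤ |C| * c * s ^ 3 := by
        refine mul_le_mul_of_nonneg_right ?_ (by positivity)
        exact mul_le_mul_of_nonneg_left hc4 (abs_nonneg _)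
    _ < β / 2 * s ^ 3 := mul_lt_mul_of_pos_right h5 (by positivity)
    _ ≤ (y : ℝ) := hyl
    _ ≤ max (x : ℝ) (y : ℝ) := le_max_right _ _

/-- a uniform lower bound -/
theorem lower_unif {lam : ℝ} (hlam : 0 < lam)
    (h : ∀ ε : ℝ, 0 < ε → ∀ᶠ x : ℕ in atTop, ∀ y : ℕ,
      (x : ℝ) ^ ((1 : ℝ) / 2) / (Real.log x) ^ (1 + ε) ≤ |(y : ℝ) ^ 2 - lam * (x : ℝ) ^ 3|)
    (hne : ∀ x y : ℕ, 1 ≤ x → (y : ℝ) ^ 2 - lam * (x : ℝ) ^ 3 ≠ 0) (ε : ℝ) (hε : 0 < ε) :
    ∃ κ : ℝ, 0 < κ ∧ ∀ x y : ℕ, 1 ≤ x →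
      κ * (x : ℝ) ^ ((1 : ℝ) / 2) ≤
        |(y : ℝ) ^ 2 - lam * (x : ℝ) ^ 3| * (Real.log (x + 2)) ^ (1 + ε) := by
  have hL : ∀ x : ℕ, 0 < Real.log ((x : ℝ) + 2) := fun x => by
    have : (0 : ℝ) ≤ x := Nat.cast_nonneg _
    exact Real.log_pos (by linarith)
  -- one value of x
  have hone : ∀ x : ℕ, 1 ≤ x → ∃ κ : ℝ, 0 < κ ∧ ∀ y : ℕ,
      κ * (x : ℝ) ^ ((1 : ℝ) / 2) ≤
        |(y : ℝ) ^ 2 - lam * (x : ℝ) ^ 3| * (Real.log (x + 2)) ^ (1 + ε) := by
    intro x hx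
    have hx0 : (0 : ℝ) < x := by exact_mod_cast hx
    set A : ℝ := lam * (x : ℝ) ^ 3 with hA
    have hA0 : 0 < A := by positivity
    set B : ℝ := Real.sqrt A with hB
    have hB0 : 0 < B := Real.sqrt_pos.2 hA0
    have hB2 : B ^ 2 = A := Real.sq_sqrt hA0.le
    have hdn : 0 < dn B := by
      unfold dn
      rw [abs_pos]
      intro h0
      have h1 : B = (round B : ℝ) := by linarith
      have h2 : 0 < round B := by
        have : (0 : ℝ) < (round B : ℝ) := by rw [← h1]; exact hB0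
        exact_mod_cast this
      have h3 : (((round B).toNat : ℕ) : ℝ) = (round B : ℝ) := by
        have : (((round B).toNat : ℕ) : ℤ) = round B := Int.toNat_of_nonneg h2.le
        exact_mod_cast congrArg (Int.cast : ℤ → ℝ) this
      apply hne x (round B).toNat hx
      rw [h3, ← h1, hB2, sub_self]
    have hs0 : 0 < (x : ℝ) ^ ((1 : ℝ) / 2) := Real.rpow_pos_of_pos hx0 _
    have hLL : 0 < (Real.log ((x : ℝ) + 2)) ^ (1 + ε) := Real.rpow_pos_of_pos (hL x) _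
    refine ⟨B * dn B * (Real.log (x + 2)) ^ (1 + ε) / (x : ℝ) ^ ((1 : ℝ) / 2), by positivity,
      fun y => ?_⟩
    rw [div_mul_cancel₀ _ hs0.ne']
    refine mul_le_mul_of_nonneg_right ?_ hLL.le
    have h4 := pow_diff_lb 2 (by norm_num) (y := (y : ℝ)) (B := B) (Nat.cast_nonneg _) hB0.le
    rw [hB2] at h4
    have h5 : dn B ≤ |(y : ℝ) - B| := by
      have := dn_le B (y : ℤ)
      exact_mod_cast this
    calc B * dn B ≤ B * |(y : ℝ) - B| := mul_le_mul_of_nonneg_left h5 hB0.le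
      _ = B ^ (2 - 1) * |(y : ℝ) - B| := by norm_num
      _ ≤ _ := h4
  -- finitely many values
  have hfin : ∀ N : ℕ, ∃ κ : ℝ, 0 < κ ∧ ∀ x y : ℕ, 1 ≤ x → x ≤ N →
      κ * (x : ℝ) ^ ((1 : ℝ) / 2) ≤
        |(y : ℝ) ^ 2 - lam * (x : ℝ) ^ 3| * (Real.log (x + 2)) ^ (1 + ε) := by
    intro N
    induction N with
    | zero => exact ⟨1, one_pos, fun x y h1 h2 => by omega⟩
    | succ N ih =>
      obtain ⟨κ, hκ, h1⟩ := ih
      obtain ⟨κ', hκ', h2⟩ := hone (N + 1) (by omega)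
      refine ⟨min κ κ', lt_min hκ hκ', fun x y hx hxN => ?_⟩
      have hs0 : 0 ≤ (x : ℝ) ^ ((1 : ℝ) / 2) := by positivity
      rcases Nat.lt_or_ge x (N + 1) with hlt | hge
      · exact (mul_le_mul_of_nonneg_right (min_le_left _ _) hs0).trans (h1 x y hx (by omega))
      · have : x = N + 1 := by omega
        subst this
        exact (mul_le_mul_of_nonneg_right (min_le_right _ _) hs0).trans (h2 y)
  obtain ⟨N, hN⟩ := eventually_atTop.1 (h ε hε)
  obtain ⟨κ, hκ, h1⟩ := hfin (N + 2)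
  refine ⟨min κ 1, lt_min hκ one_pos, fun x y hx => ?_⟩
  have hs0 : 0 ≤ (x : ℝ) ^ ((1 : ℝ) / 2) := by positivity
  rcases Nat.lt_or_ge x (N + 3) with hlt | hge
  · exact (mul_le_mul_of_nonneg_right (min_le_left _ _) hs0).trans (h1 x y hx (by omega))
  · refine (mul_le_mul_of_nonneg_right (min_le_right _ _) hs0).trans ?_
    rw [one_mul]
    have hx3 : (3 : ℝ) ≤ x := by exact_mod_cast (by omega : 3 ≤ x)
    have hlx : 0 < Real.log x := Real.log_pos (by linarith)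
    have h2 := hN x (by omega) y
    rw [div_le_iff₀ (Real.rpow_pos_of_pos hlx _)] at h2
    refine h2.trans (mul_le_mul_of_nonneg_left ?_ (abs_nonneg _))
    refine Real.rpow_le_rpow hlx.le ?_ (by linarith)
    exact Real.log_le_log (by linarith) (by linarith)

/-- `x` is at most a power of `k` -/
theorem log_comp {κ ε : ℝ} (hκ : 0 < κ) (hε : 0 < ε) :
    ∃ C : ℝ, 0 < C ∧ ∀ (x : ℕ) (K : ℝ), 1 ≤ x → 0 ≤ K →
      κ * (x : ℝ) ^ ((1 : ℝ) / 2) ≤ K * (Real.log (x + 2)) ^ (1 + ε) →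
      Real.log (x + 2) ≤ C * Real.log (2 + K) := by
  set δ : ℝ := 1 / (4 * (1 + ε)) with hδ
  have hδ0 : 0 < δ := by positivity
  -- K is at least c x^(1/4)
  set D : ℝ := (1 / δ) ^ (1 + ε) * 3 ^ ((1 : ℝ) / 4) with hD
  have hD0 : 0 < D := by positivity
  set a : ℝ := min 1 (κ / D) with ha
  have ha0 : 0 < a := by positivity
  have ha1 : a ≤ 1 := min_le_left _ _
  have hlog2 : 0 < Real.log 2 := Real.log_pos (by norm_num)
  have hla : 0 ≤ Real.log (1 / a) := Real.log_nonneg ((one_le_div ha0).2 ha1)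
  refine ⟨4 + 4 * Real.log (1 / a) / Real.log 2, by positivity, fun x K hx hK h => ?_⟩
  have hx1 : (1 : ℝ) ≤ x := by exact_mod_cast hx
  have hx0 : (0 : ℝ) < x := by linarith
  have hLx : 0 < Real.log ((x : ℝ) + 2) := Real.log_pos (by linarith)
  set r : ℝ := (x : ℝ) ^ ((1 : ℝ) / 4) with hr
  have hr0 : 0 < r := Real.rpow_pos_of_pos hx0 _
  have hr2 : (x : ℝ) ^ ((1 : ℝ) / 2) = r * r := by
    rw [hr, ← Real.rpow_add hx0]
    norm_num
  have hr4 : r ^ 4 = x := by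
    rw [hr, ← Real.rpow_natCast, ← Real.rpow_mul hx0.le]
    norm_num
  have h1 : (Real.log ((x : ℝ) + 2)) ^ (1 + ε) ≤ D * r := by
    have h2 : Real.log ((x : ℝ) + 2) ≤ ((x : ℝ) + 2) ^ δ / δ := Real.log_le_rpow_div (by linarith) hδ0
    have h3 := Real.rpow_le_rpow hLx.le h2 (by linarith : 0 ≤ 1 + ε)
    refine h3.trans ?_
    have e1 : (((x : ℝ) + 2) ^ δ / δ) ^ (1 + ε) = (1 / δ) ^ (1 + ε) * ((x : ℝ) + 2) ^ ((1 : ℝ) / 4) := by
      rw [div_eq_mul_one_div, mul_comm, Real.mul_rpow (by positivity) (by positivity),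
        ← Real.rpow_mul (by positivity)]
      congr 2
      rw [hδ]
      field_simp
    rw [e1, hD, mul_assoc]
    refine mul_le_mul_of_nonneg_left ?_ (by positivity)
    rw [hr, ← Real.mul_rpow (by norm_num) hx0.le]
    exact Real.rpow_le_rpow (by linarith) (by linarith) (by norm_num)
  have h4 : κ * (r * r) ≤ K * (D * r) := by
    rw [← hr2]
    exact h.trans (mul_le_mul_of_nonneg_left h1 hK)
  have h5 : κ * r ≤ K * D := by
    have : (κ * r) * r ≤ (K * D) * r := by linarith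
    exact le_of_mul_le_mul_right this hr0
  have h6 : a * r ≤ K := by
    have h7 : a ≤ κ / D := min_le_right _ _
    calc a * r ≤ κ / D * r := mul_le_mul_of_nonneg_right h7 hr0.le
      _ = κ * r / D := by ring
      _ ≤ K := by
          rw [div_le_iff₀ hD0]
          exact h5
  -- x + 2 ≤ ((2 + K) / a)^4
  have h7 : (x : ℝ) + 2 ≤ ((2 + K) * (1 / a)) ^ 4 := by
    have h8 : r ≤ K * (1 / a) := by
      rw [mul_one_div, le_div_iff₀ ha0, mul_comm]
      exact h6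
    have h9 : (2 : ℝ) ≤ 2 * (1 / a) := by
      have := (one_le_div ha0).2 ha1
      linarith
    have h10 : (r + 2) ^ 4 ≤ ((2 + K) * (1 / a)) ^ 4 := by
      refine pow_le_pow_left₀ (by positivity) ?_ 4
      linarith
    refine le_trans ?_ h10
    nlinarith [hr4, pow_pos hr0 2, pow_pos hr0 3]
  have h11 := Real.log_le_log (by linarith) h7
  rw [Real.log_pow, Real.log_mul (by linarith) (by positivity)] at h11
  push_cast at h11
  have h12 : Real.log 2 ≤ Real.log (2 + K) := Real.log_le_log (by norm_num) (by linarith)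
  have h13 : 4 * Real.log (1 / a) ≤ 4 * Real.log (1 / a) / Real.log 2 * Real.log (2 + K) := by
    have e2 : 4 * Real.log (1 / a) = 4 * Real.log (1 / a) / Real.log 2 * Real.log 2 := by
      field_simp
    calc 4 * Real.log (1 / a) = 4 * Real.log (1 / a) / Real.log 2 * Real.log 2 := e2
      _ ≤ _ := mul_le_mul_of_nonneg_left h12 (by positivity)
  have e3 : (4 + 4 * Real.log (1 / a) / Real.log 2) * Real.log (2 + K) =
      4 * Real.log (2 + K) + 4 * Real.log (1 / a) / Real.log 2 * Real.log (2 + K) := by ring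
  rw [e3]
  linarith

/-- the easy case -/
theorem easy {D d K M ε : ℝ} (hd : 0 < d) (hD : 0 ≤ D) (hK : d ≤ K) (hM : M ≤ D * K) (hε : 0 < ε) :
    M ≤ (D / d ^ 2 / (Real.log 2) ^ (3 + ε)) * K ^ 3 * (Real.log (2 + K)) ^ (3 + ε) := by
  have hK0 : 0 < K := lt_of_lt_of_le hd hK
  have hlog2 : 0 < Real.log 2 := Real.log_pos (by norm_num)
  have hl : (Real.log 2) ^ (3 + ε) ≤ (Real.log (2 + K)) ^ (3 + ε) :=
    Real.rpow_le_rpow hlog2.le (Real.log_le_log (by norm_num) (by linarith)) (by linarith)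
  have hl0 : 0 < (Real.log 2) ^ (3 + ε) := Real.rpow_pos_of_pos hlog2 _
  have h1 : d ^ 2 ≤ K ^ 2 := pow_le_pow_left₀ hd.le hK 2
  calc M ≤ D * K := hM
    _ = (D / d ^ 2 / (Real.log 2) ^ (3 + ε)) * (K * d ^ 2) * (Real.log 2) ^ (3 + ε) := by
        field_simp
    _ ≤ (D / d ^ 2 / (Real.log 2) ^ (3 + ε)) * K ^ 3 * (Real.log (2 + K)) ^ (3 + ε) := by
        have h2 : K * d ^ 2 ≤ K ^ 3 := by
          have := mul_le_mul_of_nonneg_left h1 hK0.le
          calc K * d ^ 2 ≤ K * K ^ 2 := this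
            _ = K ^ 3 := by ring
        have h3 : 0 ≤ D / d ^ 2 / (Real.log 2) ^ (3 + ε) := by positivity
        exact mul_le_mul (mul_le_mul_of_nonneg_left h2 h3) hl hl0.le (by positivity)

theorem hall_log {lam : ℝ} (hlam : 0 < lam)
    (h : ∀ ε : ℝ, 0 < ε → ∀ᶠ x : ℕ in atTop, ∀ y : ℕ,
      (x : ℝ) ^ ((1 : ℝ) / 2) / (Real.log x) ^ (1 + ε) ≤ |(y : ℝ) ^ 2 - lam * (x : ℝ) ^ 3|)
    (hne : ∀ x y : ℕ, 1 ≤ x → (y : ℝ) ^ 2 - lam * (x : ℝ) ^ 3 ≠ 0) : HallLog lam := by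
  intro ε hε
  set β : ℝ := Real.sqrt lam with hβ
  have hβ0 : 0 < β := Real.sqrt_pos.2 hlam
  have hβ2 : β ^ 2 = lam := Real.sq_sqrt hlam.le
  have hlog2 : 0 < Real.log 2 := Real.log_pos (by norm_num)
  have hl0 : 0 < (Real.log 2) ^ (3 + ε) := Real.rpow_pos_of_pos hlog2 _
  obtain ⟨κ, hκ, h1⟩ := lower_unif hlam h hne (ε / 3) (by positivity)
  obtain ⟨C2, hC2, h2⟩ := log_comp hκ (by positivity : 0 < ε / 3)
  -- the constants
  set CA : ℝ := (1 + 2 * β) / κ ^ 3 * C2 ^ (3 + ε) with hCA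
  set CB : ℝ := (4 / 3 + 1 / (3 * lam)) / (3 / 4) ^ 2 / (Real.log 2) ^ (3 + ε) with hCB
  set C0 : ℝ := 1 / 1 ^ 2 / (Real.log 2) ^ (3 + ε) with hC0
  set CN : ℝ := (1 + 1 / lam) / lam ^ 2 / (Real.log 2) ^ (3 + ε) with hCN
  have hCA0 : 0 < CA := by positivity
  have hCB0 : 0 < CB := by positivity
  have hC00 : 0 < C0 := by positivity
  have hCN0 : 0 < CN := by positivity
  refine ⟨CA + CB + C0 + CN, by positivity, fun x y hxy => ?_⟩
  set K : ℝ := |(y : ℝ) ^ 2 - lam * (x : ℝ) ^ 3| with hK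
  have hK0 : 0 ≤ K := abs_nonneg _
  have hLK : 0 ≤ (Real.log (2 + K)) ^ (3 + ε) :=
    Real.rpow_nonneg (Real.log_nonneg (by linarith)) _
  have hfin : ∀ C : ℝ, C ≤ CA + CB + C0 + CN →
      max |(x : ℝ)| |(y : ℝ)| ≤ C * K ^ 3 * (Real.log (2 + K)) ^ (3 + ε) →
      max |(x : ℝ)| |(y : ℝ)| ≤ (CA + CB + C0 + CN) * K ^ 3 * (Real.log (2 + K)) ^ (3 + ε) := by
    intro C hC hle
    refine hle.trans ?_
    exact mul_le_mul_of_nonneg_right (mul_le_mul_of_nonneg_right hC (by positivity)) hLK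
  -- integers
  have hysq : |(y : ℝ)| ≤ (y : ℝ) ^ 2 := by
    have : |y| ≤ y ^ 2 := by
      rw [← sq_abs]
      rcases (abs_nonneg y).eq_or_lt with h0 | h0
      · rw [← h0]; norm_num
      · nlinarith
    exact_mod_cast this
  rcases lt_trichotomy x 0 with hx | hx | hx
  · -- negative
    refine hfin CN (by linarith) (easy (D := 1 + 1 / lam) hlam (by positivity) ?_ ?_ hε)
    all_goals
      have hx1 : (x : ℝ) ≤ -1 := by exact_mod_cast (by omega : x ≤ -1)
      have hxx : 1 ≤ |(x : ℝ)| := by rw [abs_of_neg (by linarith)]; linarith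
      have e1 : (y : ℝ) ^ 2 - lam * (x : ℝ) ^ 3 = (y : ℝ) ^ 2 + lam * |(x : ℝ)| ^ 3 := by
        rw [abs_of_neg (by linarith)]
        ring
      have h3 : |(x : ℝ)| ≤ |(x : ℝ)| ^ 3 := le_self_pow₀ hxx (by norm_num)
      have hKe : K = (y : ℝ) ^ 2 + lam * |(x : ℝ)| ^ 3 := by
        rw [hK, e1]
        exact abs_of_nonneg (by positivity)
      have h4 : lam * |(x : ℝ)| ≤ lam * |(x : ℝ)| ^ 3 := mul_le_mul_of_nonneg_left h3 hlam.le
    · rw [hKe]
      have h5 : lam * 1 ≤ lam * |(x : ℝ)| := mul_le_mul_of_nonneg_left hxx hlam.le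
      have := sq_nonneg (y : ℝ)
      linarith
    · have h6 : lam * |(x : ℝ)| ≤ K := by
        have := sq_nonneg (y : ℝ)
        rw [hKe]
        linarith
      have h7 : |(x : ℝ)| ≤ 1 / lam * K := by
        rw [one_div_mul_eq_div, le_div_iff₀ hlam]
        linarith
      have h8 : |(y : ℝ)| ≤ K := by
        rw [hKe]
        have : 0 ≤ lam * |(x : ℝ)| ^ 3 := by positivity
        linarith
      have h9 : 0 ≤ 1 / lam * K := by positivity
      rw [max_le_iff]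
      constructor <;> linarith
  · -- zero
    refine hfin C0 (by linarith) (easy (D := 1) (d := 1) one_pos zero_le_one ?_ ?_ hε)
    all_goals
      have hy0 : y ≠ 0 := by
        rcases hxy with h0 | h0
        · exact absurd hx h0
        · exact h0
      have hy1 : 1 ≤ |(y : ℝ)| := by
        have : 1 ≤ |y| := Int.one_le_abs hy0
        exact_mod_cast this
      have hKe : K = (y : ℝ) ^ 2 := by
        rw [hK, hx]
        simp
    · rw [hKe]
      linarith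
    · rw [hKe, one_mul, hx]
      simp only [Int.cast_zero, abs_zero]
      rw [max_le_iff]
      exact ⟨sq_nonneg _, hysq⟩
  · -- positive
    obtain ⟨n, rfl⟩ : ∃ n : ℕ, x = n := ⟨x.toNat, by omega⟩
    have hn : 1 ≤ n := by omega
    have hn1 : (1 : ℝ) ≤ n := by exact_mod_cast hn
    have hn0 : (0 : ℝ) < n := by linarith
    set m : ℕ := y.natAbs with hm
    have hmy : (m : ℝ) = |(y : ℝ)| := by
      rw [hm, Nat.cast_natAbs]
      push_cast
      rfl
    have hm2 : (m : ℝ) ^ 2 = (y : ℝ) ^ 2 := by rw [hmy, sq_abs]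
    have hKm : K = |(m : ℝ) ^ 2 - lam * (n : ℝ) ^ 3| := by
      rw [hK, hm2]
      push_cast
      rfl
    set s : ℝ := (n : ℝ) ^ ((1 : ℝ) / 2) with hs
    have hs0 : 0 < s := Real.rpow_pos_of_pos hn0 _
    have hs2 : s ^ 2 = n := by
      rw [hs, ← Real.sqrt_eq_rpow, Real.sq_sqrt hn0.le]
    have hs1 : 1 ≤ s := by
      rw [hs]
      exact Real.one_le_rpow hn1 (by norm_num)
    have hn3 : (n : ℝ) ^ 3 = s ^ 6 := by rw [← hs2]; ring
    have hns : (n : ℝ) ≤ s ^ 3 := by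
      rw [← hs2]
      exact pow_le_pow_right₀ hs1 (by norm_num)
    by_cases hcase : (m : ℝ) ≤ 2 * β * s ^ 3
    · -- near
      refine hfin CA (by linarith) ?_
      have h3 := h1 n m hn
      rw [← hKm] at h3
      have h4 := h2 n K hn hK0 h3
      have hLn : 0 < Real.log ((n : ℝ) + 2) := Real.log_pos (by linarith)
      have h5 : max |(((n : ℕ) : ℤ) : ℝ)| |(y : ℝ)| ≤ (1 + 2 * β) * s ^ 3 := by
        rw [← hmy, max_le_iff]
        have e1 : |(((n : ℕ) : ℤ) : ℝ)| = (n : ℝ) := by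
          push_cast
          exact abs_of_pos hn0
        rw [e1]
        have e2 : (1 + 2 * β) * s ^ 3 = s ^ 3 + 2 * β * s ^ 3 := by ring
        have e3 : 0 ≤ 2 * β * s ^ 3 := by positivity
        have e4 : 0 ≤ s ^ 3 := by positivity
        rw [e2]
        constructor <;> linarith
      refine h5.trans ?_
      have h6 : (κ * s) ^ 3 ≤ (K * (Real.log ((n : ℝ) + 2)) ^ (1 + ε / 3)) ^ 3 :=
        pow_le_pow_left₀ (by positivity) h3 3
      have e5 : ((Real.log ((n : ℝ) + 2)) ^ (1 + ε / 3)) ^ 3 = (Real.log ((n : ℝ) + 2)) ^ (3 + ε) := by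
        rw [← Real.rpow_natCast, ← Real.rpow_mul hLn.le]
        congr 1
        push_cast
        ring
      rw [mul_pow, mul_pow, e5] at h6
      have hLK2 : 0 ≤ Real.log (2 + K) := Real.log_nonneg (by linarith)
      have h7 : (Real.log ((n : ℝ) + 2)) ^ (3 + ε) ≤ C2 ^ (3 + ε) * (Real.log (2 + K)) ^ (3 + ε) := by
        rw [← Real.mul_rpow hC2.le hLK2]
        exact Real.rpow_le_rpow hLn.le h4 (by linarith)
      have h8 : κ ^ 3 * s ^ 3 ≤ K ^ 3 * (C2 ^ (3 + ε) * (Real.log (2 + K)) ^ (3 + ε)) :=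
        h6.trans (mul_le_mul_of_nonneg_left h7 (by positivity))
      have h9 : s ^ 3 ≤ K ^ 3 * (C2 ^ (3 + ε) * (Real.log (2 + K)) ^ (3 + ε)) / κ ^ 3 := by
        rw [le_div_iff₀ (by positivity)]
        linarith
      calc (1 + 2 * β) * s ^ 3 ≤
            (1 + 2 * β) * (K ^ 3 * (C2 ^ (3 + ε) * (Real.log (2 + K)) ^ (3 + ε)) / κ ^ 3) :=
            mul_le_mul_of_nonneg_left h9 (by positivity)
        _ = CA * K ^ 3 * (Real.log (2 + K)) ^ (3 + ε) := by
            rw [hCA]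
            ring
    · -- far
      push Not at hcase
      have h3 : (2 * β * s ^ 3) ^ 2 ≤ (m : ℝ) ^ 2 := pow_le_pow_left₀ (by positivity) hcase.le 2
      have e1 : (2 * β * s ^ 3) ^ 2 = 4 * (lam * (n : ℝ) ^ 3) := by
        rw [hn3, ← hβ2]
        ring
      rw [e1] at h3
      have h4 : K = (m : ℝ) ^ 2 - lam * (n : ℝ) ^ 3 := by
        rw [hKm]
        apply abs_of_nonneg
        have : 0 ≤ lam * (n : ℝ) ^ 3 := by positivity
        linarith
      have hm0 : 0 < (m : ℝ) := lt_of_le_of_lt (by positivity) hcase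
      have hm1 : (1 : ℝ) ≤ m := by
        have : 0 < m := by exact_mod_cast hm0
        exact_mod_cast this
      have h5 : 3 / 4 * (m : ℝ) ^ 2 ≤ K := by
        rw [h4]
        linarith
      have hmm : (m : ℝ) ≤ (m : ℝ) ^ 2 := le_self_pow₀ hm1 (by norm_num)
      refine hfin CB (by linarith) (easy (D := 4 / 3 + 1 / (3 * lam)) (d := 3 / 4) (by norm_num)
        (by positivity) ?_ ?_ hε)
      · nlinarith
      · have h6 : (m : ℝ) ≤ 4 / 3 * K := by linarith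
        have h7 : (n : ℝ) ≤ 1 / (3 * lam) * K := by
          rw [one_div_mul_eq_div, le_div_iff₀ (by positivity)]
          have h8 : (n : ℝ) ≤ (n : ℝ) ^ 3 := le_self_pow₀ hn1 (by norm_num)
          have h9 : lam * (n : ℝ) ≤ lam * (n : ℝ) ^ 3 := mul_le_mul_of_nonneg_left h8 hlam.le
          linarith
        have h10 : 0 ≤ 1 / (3 * lam) * K := by positivity
        rw [← hmy, max_le_iff]
        have e2 : |(((n : ℕ) : ℤ) : ℝ)| = (n : ℝ) := by
          push_cast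
          exact abs_of_pos hn0
        rw [e2]
        constructor <;> linarith

/-- almost every `lam` is not a quotient `y² / x³` -/
theorem ae_ne : ∀ᵐ lam : ℝ, ∀ x y : ℕ, 1 ≤ x → (y : ℝ) ^ 2 - lam * (x : ℝ) ^ 3 ≠ 0 := by
  rw [ae_iff]
  refine measure_mono_null (t := Set.range fun p : ℕ × ℕ => (p.2 : ℝ) ^ 2 / (p.1 : ℝ) ^ 3) ?_
    ((Set.countable_range _).measure_zero volume)
  intro lam hlam
  rw [Set.mem_ofPred_eq] at hlam
  push Not at hlam
  obtain ⟨x, y, hx, h⟩ := hlam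
  refine ⟨(x, y), ?_⟩
  have hx0 : (0 : ℝ) < x := by exact_mod_cast hx
  simp only
  rw [div_eq_iff (by positivity)]
  linarith

theorem hall : Pool.Agent.N656.MH.S_HALL := by
  intro h1 h2
  have g := gen 3 2 (by norm_num) (by norm_num) (by exact_mod_cast h1) (by exact_mod_cast h2)
  filter_upwards [g, ae_ne] with lam hg hne hlam
  obtain ⟨hu, hl⟩ := hg hlam
  have e : (((3 : ℕ) : ℝ) - ((3 : ℕ) : ℝ) / ((2 : ℕ) : ℝ) - 1) = (1 : ℝ) / 2 := by norm_num
  rw [e] at hu hl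
  exact ⟨hall_fails hlam hu hne, hall_log hlam hl hne⟩

end Pool.Agent.N277.MH
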